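import Pool.Agent.Y180.OM.MvA

/-!
# OM-A: the diagonal for two sets of primes
-/

set_option autoImplicit false

namespace Pool.Agent.Y180.OM.MvA

open Finset

theorem prod_pos' {S : Finset ℕ} (hS : ∀ p ∈ S, p.Prime) : 1 ≤ ∏ p ∈ S, p :=
  Finset.prod_pos (fun p hp => (hS p hp).pos)

theorem dv_div_le (U : Finset ℕ) (hU : ∀ p ∈ U, p.Prime) :
    (((∏ p ∈ U, p).divisors.card : ℕ) : ℝ) / Real.sqrt ((∏ p ∈ U, p : ℕ) : ℝ)
      ≤ ∏ p ∈ U, (2 / Real.sqrt (p : ℝ)) := by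
  have h1 := dv_prod_le hU
  have h2 : Real.sqrt ((∏ p ∈ U, p : ℕ) : ℝ) = ∏ p ∈ U, Real.sqrt (p : ℝ) := by
    push_cast
    exact Real.sqrt_prod _ (fun p _ => by positivity)
  rw [Finset.prod_div_distrib, h2]
  exact div_le_div_of_nonneg_right h1 (Finset.prod_nonneg (fun p _ => Real.sqrt_nonneg _))

theorem econd (S S' : Finset ℕ) (hS : ∀ p ∈ S, p.Prime) (k k' : ℕ) :
    (k * ∏ p ∈ S, p) = (k' * ∏ p ∈ S', p) ↔
      (k * ∏ p ∈ S \ S', p) = (k' * ∏ p ∈ S' \ S, p) := by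
  have q1 : ∏ p ∈ S, p = (∏ p ∈ S ∩ S', p) * ∏ p ∈ S \ S', p := by
    rw [Finset.prod_inter_mul_prod_sdiff]
  have q2 : ∏ p ∈ S', p = (∏ p ∈ S ∩ S', p) * ∏ p ∈ S' \ S, p := by
    rw [inter_comm, Finset.prod_inter_mul_prod_sdiff]
  have hF : 1 ≤ ∏ p ∈ S ∩ S', p := prod_pos' (fun p hp => hS p (mem_inter.mp hp).1)
  rw [q1, q2]
  generalize (∏ p ∈ S ∩ S', p) = F at hF
  generalize (∏ p ∈ S \ S', p) = u
  generalize (∏ p ∈ S' \ S, p) = u'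
  constructor
  · intro h
    have h2 : F * (k * u) = F * (k' * u') := by linarith
    exact Nat.eq_of_mul_eq_mul_left (by omega) h2
  · intro h
    have h2 : F * (k * u) = F * (k' * u') := by rw [h]
    linarith

theorem fix_le {N N1 : ℕ} {Q σ : ℝ} (hσ : 1 / 2 ≤ σ) (G : ℕ → ℝ) (hG0 : ∀ k, 0 ≤ G k)
    (hG : ∀ k, G k ≤ (k.divisors.card : ℝ)) (hG1 : ∀ k, k ≤ N1 → G k = 0) {S S' : Finset ℕ}
    (hS : ∀ p ∈ S, p.Prime) (hS' : ∀ p ∈ S', p.Prime) (hQ : ((∏ p ∈ S', p : ℕ) : ℝ) ≤ Q) :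
    ∑ k ∈ Icc 1 N, ∑ k' ∈ Icc 1 N, (if k * (∏ p ∈ S, p) = k' * (∏ p ∈ S', p) then
      (G k * (k : ℝ) ^ (-σ)) * (G k' * (k' : ℝ) ^ (-σ)) else 0) ≤
    ((∏ p ∈ S \ S', (2 / Real.sqrt (p : ℝ))) * (∏ p ∈ S' \ S, (2 / Real.sqrt (p : ℝ)))) *
      ∑ m ∈ (Icc 1 N).filter (fun m : ℕ => (N1 : ℝ) < (m : ℝ) * Q),
        (m.divisors.card : ℝ) ^ 2 * (m : ℝ) ^ (-(2 * σ)) := by
  have p1 : ∀ p ∈ S \ S', p.Prime := fun p hp => hS p (mem_sdiff.mp hp).1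
  have p2 : ∀ p ∈ S' \ S, p.Prime := fun p hp => hS' p (mem_sdiff.mp hp).1
  have p3 : ∀ p ∈ S ∩ S', p.Prime := fun p hp => hS p (mem_inter.mp hp).1
  have hcop : Nat.Coprime (∏ p ∈ S' \ S, p) (∏ p ∈ S \ S', p) := by
    refine Nat.Coprime.prod_left (fun p hp => Nat.Coprime.prod_right (fun q hq => ?_))
    rw [Nat.coprime_primes (p2 p hp) (p1 q hq)]
    rintro rfl
    exact (mem_sdiff.mp hp).2 (mem_sdiff.mp hq).1
  have hu'Q : ((∏ p ∈ S' \ S, p : ℕ) : ℝ) ≤ Q := by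
    refine le_trans ?_ hQ
    have q2 : ∏ p ∈ S', p = (∏ p ∈ S ∩ S', p) * ∏ p ∈ S' \ S, p := by
      rw [inter_comm, Finset.prod_inter_mul_prod_sdiff]
    have hF : 1 ≤ ∏ p ∈ S ∩ S', p := prod_pos' p3
    have h1 : ∏ p ∈ S' \ S, p ≤ ∏ p ∈ S', p := by
      rw [q2]
      exact Nat.le_mul_of_pos_left _ (by omega)
    exact_mod_cast h1
  have hd := diag (N := N) (N1 := N1) (Q := Q) hσ G hG0 hG hG1 (prod_pos' p1) (prod_pos' p2)
    hu'Q hcop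
  have e1 : ∑ k ∈ Icc 1 N, ∑ k' ∈ Icc 1 N, (if k * (∏ p ∈ S, p) = k' * (∏ p ∈ S', p) then
      (G k * (k : ℝ) ^ (-σ)) * (G k' * (k' : ℝ) ^ (-σ)) else 0) =
      ∑ k ∈ Icc 1 N, ∑ k' ∈ Icc 1 N, (if k * (∏ p ∈ S \ S', p) = k' * (∏ p ∈ S' \ S, p) then
      (G k * (k : ℝ) ^ (-σ)) * (G k' * (k' : ℝ) ^ (-σ)) else 0) :=
    Finset.sum_congr rfl (fun k _ => Finset.sum_congr rfl (fun k' _ =>
      if_congr (econd S S' hS k k') rfl rfl))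
  rw [e1]
  refine hd.trans ?_
  refine mul_le_mul_of_nonneg_right ?_ (Finset.sum_nonneg (fun m _ => by positivity))
  exact mul_le_mul (dv_div_le _ p1) (dv_div_le _ p2) (by positivity)
    (Finset.prod_nonneg (fun p _ => by positivity))

/-- the double sum over the pairs of sets -/
theorem pairs_le {P : Finset ℕ} {r : ℕ → ℝ}
    (hr : ∀ p ∈ P, 0 ≤ r p) {K D : ℝ} (hK : 0 ≤ K) (hD0 : 0 ≤ D) (Y : Finset ℕ → ℝ)
    (hY0 : ∀ S, 0 ≤ Y S) (F : Finset (Finset ℕ)) (hF : F ⊆ P.powerset)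
    (hY : ∀ S ∈ F, Y S ≤ K * ∏ p ∈ S, r p) (Z : Finset ℕ → Finset ℕ → ℝ)
    (hZ : ∀ S ∈ F, ∀ S' ∈ F, Z S S' ≤
      ((∏ p ∈ S \ S', (2 / Real.sqrt (p : ℝ))) * (∏ p ∈ S' \ S, (2 / Real.sqrt (p : ℝ)))) * D) :
    ∑ S ∈ F, ∑ S' ∈ F, (Y S * Y S') * Z S S' ≤
      (K ^ 2 * D) * ∑ S ∈ P.powerset, ∑ S' ∈ P.powerset,
        ((∏ p ∈ S, r p) * (∏ p ∈ S', r p) *
          ((∏ p ∈ S \ S', (2 / Real.sqrt (p : ℝ))) *
            (∏ p ∈ S' \ S, (2 / Real.sqrt (p : ℝ))))) := by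
  have hr0 : ∀ S ∈ P.powerset, 0 ≤ ∏ p ∈ S, r p := fun S hS =>
    Finset.prod_nonneg (fun p hp => hr p ((mem_powerset.mp hS) hp))
  have ha0 : ∀ U : Finset ℕ, 0 ≤ ∏ p ∈ U, (2 / Real.sqrt (p : ℝ)) := fun U =>
    Finset.prod_nonneg (fun p _ => by positivity)
  have hterm : ∀ S ∈ P.powerset, ∀ S' ∈ P.powerset, 0 ≤
      ((∏ p ∈ S, r p) * (∏ p ∈ S', r p) *
      ((∏ p ∈ S \ S', (2 / Real.sqrt (p : ℝ))) * (∏ p ∈ S' \ S, (2 / Real.sqrt (p : ℝ))))) :=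
    fun S hS S' hS' => mul_nonneg (mul_nonneg (hr0 S hS) (hr0 S' hS'))
      (mul_nonneg (ha0 _) (ha0 _))
  calc ∑ S ∈ F, ∑ S' ∈ F, (Y S * Y S') * Z S S'
      ≤ ∑ S ∈ F, ∑ S' ∈ F, (K ^ 2 * D) * ((∏ p ∈ S, r p) * (∏ p ∈ S', r p) *
          ((∏ p ∈ S \ S', (2 / Real.sqrt (p : ℝ))) *
            (∏ p ∈ S' \ S, (2 / Real.sqrt (p : ℝ))))) := by
        refine Finset.sum_le_sum (fun S hS => Finset.sum_le_sum (fun S' hS' => ?_))
        have h1 := hZ S hS S' hS'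
        have h2 := hY S hS
        have h3 := hY S' hS'
        have h4 := hr0 S (hF hS)
        have h5 := hr0 S' (hF hS')
        calc (Y S * Y S') * Z S S'
            ≤ (Y S * Y S') * (((∏ p ∈ S \ S', (2 / Real.sqrt (p : ℝ))) *
              (∏ p ∈ S' \ S, (2 / Real.sqrt (p : ℝ)))) * D) :=
              mul_le_mul_of_nonneg_left h1 (mul_nonneg (hY0 S) (hY0 S'))
          _ ≤ ((K * ∏ p ∈ S, r p) * (K * ∏ p ∈ S', r p)) *
                (((∏ p ∈ S \ S', (2 / Real.sqrt (p : ℝ))) *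
              (∏ p ∈ S' \ S, (2 / Real.sqrt (p : ℝ)))) * D) := by
              refine mul_le_mul_of_nonneg_right ?_
                (mul_nonneg (mul_nonneg (ha0 _) (ha0 _)) hD0)
              exact mul_le_mul h2 h3 (hY0 S') (mul_nonneg hK h4)
          _ = _ := by ring
    _ = (K ^ 2 * D) * ∑ S ∈ F, ∑ S' ∈ F, ((∏ p ∈ S, r p) * (∏ p ∈ S', r p) *
          ((∏ p ∈ S \ S', (2 / Real.sqrt (p : ℝ))) *
            (∏ p ∈ S' \ S, (2 / Real.sqrt (p : ℝ))))) := by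
        rw [Finset.mul_sum]
        refine Finset.sum_congr rfl (fun S _ => ?_)
        rw [Finset.mul_sum]
    _ ≤ _ := by
        refine mul_le_mul_of_nonneg_left ?_ (mul_nonneg (sq_nonneg K) hD0)
        refine le_trans (Finset.sum_le_sum (fun S hS =>
          Finset.sum_le_sum_of_subset_of_nonneg hF
            (fun S' hS' _ => hterm S (hF hS) S' hS'))) ?_
        exact Finset.sum_le_sum_of_subset_of_nonneg hF
          (fun S hS _ => Finset.sum_nonneg (fun S' hS' => hterm S hS S' hS'))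

/-- rearrangement of the diagonal sum -/
theorem rearr (N : ℕ) (F : Finset (Finset ℕ)) (w : ℕ → ℝ) (Y : Finset ℕ → ℝ)
    (q : Finset ℕ → ℕ) :
    ∑ i ∈ Icc 1 N ×ˢ F, ∑ j ∈ Icc 1 N ×ˢ F,
      (if i.1 * q i.2 = j.1 * q j.2 then (w i.1 * Y i.2) * (w j.1 * Y j.2) else 0) =
    ∑ S ∈ F, ∑ S' ∈ F, (Y S * Y S') * ∑ k ∈ Icc 1 N, ∑ k' ∈ Icc 1 N,
        (if k * q S = k' * q S' then w k * w k' else 0) := by
  rw [Finset.sum_product_right]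
  refine Finset.sum_congr rfl (fun S _ => ?_)
  simp_rw [Finset.sum_product_right]
  rw [Finset.sum_comm]
  refine Finset.sum_congr rfl (fun S' _ => ?_)
  simp only [Finset.mul_sum]
  refine Finset.sum_congr rfl (fun k _ => Finset.sum_congr rfl (fun k' _ => ?_))
  split_ifs
  · ring
  · ring

end Pool.Agent.Y180.OM.MvA
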