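import Pool.Agent.Y746.OM.Stm
import Pool.Agent.Y180.OM.MvB

/-!
# OM-A: mean square of a Dirichlet polynomial against the resonator
-/

set_option autoImplicit false

namespace Pool.Agent.Y180.OM.A

open Finset MeasureTheory
open Pool.Agent.Y746.OM Pool.Agent.Y180.OM.MvA

theorem qS_pos {S : Finset ℕ} (hS : ∀ p ∈ S, p.Prime) : 1 ≤ qS S :=
  Finset.prod_pos (fun p hp => (hS p hp).pos)

/-- the value of the product as a Dirichlet polynomial over pairs -/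
theorem prod_eq {P : Finset ℕ} (Q : ℝ) (y : Finset ℕ → ℂ) (N : ℕ) (g : ℕ → ℂ) (σ v : ℝ) :
    DD g N ((σ : ℂ) + (v : ℂ) * Complex.I) * RS P Q y ((v : ℂ) * Complex.I) =
      ∑ i ∈ Icc 1 N ×ˢ FS P Q, (g i.1 * ((i.1 : ℕ) : ℂ) ^ (-(σ : ℂ)) * y i.2) *
        ((i.1 * qS i.2 : ℕ) : ℂ) ^ (-((v : ℂ) * Complex.I)) := by
  unfold DD RS
  rw [Finset.sum_mul_sum, Finset.sum_product]
  refine Finset.sum_congr rfl (fun k hk => Finset.sum_congr rfl (fun S _ => ?_))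
  rw [mem_Icc] at hk
  have hk0 : (k : ℂ) ≠ 0 := by exact_mod_cast (by omega : k ≠ 0)
  simp only
  rw [neg_add, Complex.cpow_add _ _ hk0, Nat.cast_mul, Complex.natCast_mul_natCast_cpow]
  ring

theorem diag_term (g : ℕ → ℂ) (y : Finset ℕ → ℂ) (σ : ℝ) (i j : ℕ × Finset ℕ)
    (hi : ‖g i.1 * ((i.1 : ℕ) : ℂ) ^ (-(σ : ℂ)) * y i.2‖ =
      (‖g i.1‖ * (i.1 : ℝ) ^ (-σ)) * ‖y i.2‖)
    (hj : ‖g j.1 * ((j.1 : ℕ) : ℂ) ^ (-(σ : ℂ)) * y j.2‖ =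
      (‖g j.1‖ * (j.1 : ℝ) ^ (-σ)) * ‖y j.2‖) :
    (if i.1 * qS i.2 = j.1 * qS j.2 then
        ‖g i.1 * ((i.1 : ℕ) : ℂ) ^ (-(σ : ℂ)) * y i.2‖ *
        ‖g j.1 * ((j.1 : ℕ) : ℂ) ^ (-(σ : ℂ)) * y j.2‖ else 0) =
    (if i.1 * qS i.2 = j.1 * qS j.2 then
        ((‖g i.1‖ * (i.1 : ℝ) ^ (-σ)) * ‖y i.2‖) * ((‖g j.1‖ * (j.1 : ℝ) ^ (-σ)) * ‖y j.2‖)
        else 0) := by
  rw [hi, hj]

theorem t_A (hPP : S_PP) : S_A := by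
  intro P r Q K y hP hr hQ hK hy N1 N2 g hN2 hg hg1 σ A B hσ hAB
  have hQ0 : 0 ≤ Q := by linarith
  -- the product
  have e0 : ∀ v : ℝ, ‖DD g N2 ((σ : ℂ) + (v : ℂ) * Complex.I)‖ ^ 2 *
      ‖RS P Q y ((v : ℂ) * Complex.I)‖ ^ 2 =
      ‖∑ i ∈ Icc 1 N2 ×ˢ FS P Q, (g i.1 * ((i.1 : ℕ) : ℂ) ^ (-(σ : ℂ)) * y i.2) *
        ((i.1 * qS i.2 : ℕ) : ℂ) ^ (-((v : ℂ) * Complex.I))‖ ^ 2 := by
    intro v
    rw [← prod_eq, norm_mul, mul_pow]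
  simp_rw [e0]
  have hmemS : ∀ S ∈ FS P Q, (∀ p ∈ S, p.Prime) ∧ S ∈ P.powerset ∧ (qS S : ℝ) ≤ Q := by
    intro S hS
    unfold FS at hS
    rw [mem_filter] at hS
    exact ⟨fun p hp => hP p ((mem_powerset.mp hS.1) hp), hS.1, hS.2⟩
  have hr0 : ∀ S ∈ P.powerset, 0 ≤ ∏ p ∈ S, r p := fun S hS =>
    Finset.prod_nonneg (fun p hp => hr p ((mem_powerset.mp hS) hp))
  have hM0 : (0 : ℝ) < (N2 : ℝ) * Q := by
    have : (1 : ℝ) ≤ N2 := by exact_mod_cast hN2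
    positivity
  have hmv := mv (Icc 1 N2 ×ˢ FS P Q)
    (fun i => g i.1 * ((i.1 : ℕ) : ℂ) ^ (-(σ : ℂ)) * y i.2) (fun i => i.1 * qS i.2)
    (M := (N2 : ℝ) * Q) hM0 (by
      intro i hi
      rw [mem_product, mem_Icc] at hi
      exact Nat.mul_pos hi.1.1 (qS_pos (hmemS _ hi.2).1)) (by
      intro i hi
      rw [mem_product, mem_Icc] at hi
      push_cast
      have h1 : (i.1 : ℝ) ≤ N2 := by exact_mod_cast hi.1.2
      have h2 := (hmemS _ hi.2).2.2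
      gcongr) hAB
  refine hmv.trans ?_
  clear hmv e0
  -- norms of the coefficients
  have hc : ∀ i ∈ Icc 1 N2 ×ˢ FS P Q, ‖g i.1 * ((i.1 : ℕ) : ℂ) ^ (-(σ : ℂ)) * y i.2‖ =
      (‖g i.1‖ * (i.1 : ℝ) ^ (-σ)) * ‖y i.2‖ := by
    intro i hi
    rw [mem_product, mem_Icc] at hi
    rw [norm_mul, norm_mul, Complex.norm_natCast_cpow_of_pos hi.1.1, Complex.neg_re,
      Complex.ofReal_re]
  have hEP0 : ∏ p ∈ P, (1 + r p ^ 2) ≤ EP P r := by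
    unfold EP
    refine Finset.prod_le_prod (fun p _ => by positivity) (fun p hp => ?_)
    have : 0 ≤ 8 * r p / Real.sqrt p := by
      have := hr p hp
      positivity
    linarith
  have hEPnn : 0 ≤ EP P r := (Finset.prod_nonneg (fun p _ => by positivity)).trans hEP0
  -- the l1 norm
  have hl1 : (∑ i ∈ Icc 1 N2 ×ˢ FS P Q, ‖g i.1 * ((i.1 : ℕ) : ℂ) ^ (-(σ : ℂ)) * y i.2‖) ^ 2 ≤
      (N2 : ℝ) ^ 4 * (K ^ 2 * (Q * EP P r)) := by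
    rw [Finset.sum_congr rfl hc, Finset.sum_product]
    have e1 : ∑ k ∈ Icc 1 N2, ∑ S ∈ FS P Q, (‖g k‖ * (k : ℝ) ^ (-σ)) * ‖y S‖ =
        (∑ k ∈ Icc 1 N2, ‖g k‖ * (k : ℝ) ^ (-σ)) * ∑ S ∈ FS P Q, ‖y S‖ := by
      rw [Finset.sum_mul_sum]
    simp only at e1 ⊢
    rw [e1]
    have b1 : ∑ k ∈ Icc 1 N2, ‖g k‖ * (k : ℝ) ^ (-σ) ≤ (N2 : ℝ) ^ 2 := by
      calc ∑ k ∈ Icc 1 N2, ‖g k‖ * (k : ℝ) ^ (-σ) ≤ ∑ k ∈ Icc 1 N2, (N2 : ℝ) := by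
            refine Finset.sum_le_sum (fun k hk => ?_)
            rw [mem_Icc] at hk
            have h1 : ‖g k‖ ≤ N2 := by
              refine (hg k).trans ((dv_le k).trans ?_)
              exact_mod_cast hk.2
            have h2 : (k : ℝ) ^ (-σ) ≤ 1 :=
              Real.rpow_le_one_of_one_le_of_nonpos (by exact_mod_cast hk.1) (by linarith)
            calc ‖g k‖ * (k : ℝ) ^ (-σ) ≤ N2 * 1 := by gcongr
              _ = N2 := mul_one _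
        _ = (N2 : ℝ) ^ 2 := by
            rw [Finset.sum_const, Nat.card_Icc, Nat.add_sub_cancel, nsmul_eq_mul, pow_two]
    have b2 : ∑ S ∈ FS P Q, ‖y S‖ ≤ K * ∑ S ∈ FS P Q, ∏ p ∈ S, r p := by
      rw [Finset.mul_sum]
      exact Finset.sum_le_sum hy
    have b3 : (∑ S ∈ FS P Q, ∏ p ∈ S, r p) ^ 2 ≤ Q * EP P r :=
      (sum_r_le hP hQ0 r).trans (mul_le_mul_of_nonneg_left hEP0 hQ0)
    have n1 : 0 ≤ ∑ k ∈ Icc 1 N2, ‖g k‖ * (k : ℝ) ^ (-σ) :=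
      Finset.sum_nonneg (fun k _ => by positivity)
    have n2 : 0 ≤ ∑ S ∈ FS P Q, ‖y S‖ := Finset.sum_nonneg (fun S _ => norm_nonneg _)
    rw [mul_pow]
    calc (∑ k ∈ Icc 1 N2, ‖g k‖ * (k : ℝ) ^ (-σ)) ^ 2 * (∑ S ∈ FS P Q, ‖y S‖) ^ 2
        ≤ ((N2 : ℝ) ^ 2) ^ 2 * (K * ∑ S ∈ FS P Q, ∏ p ∈ S, r p) ^ 2 := by
          gcongr
      _ = (N2 : ℝ) ^ 4 * (K ^ 2 * (∑ S ∈ FS P Q, ∏ p ∈ S, r p) ^ 2) := by ring
      _ ≤ (N2 : ℝ) ^ 4 * (K ^ 2 * (Q * EP P r)) := by gcongr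
  -- the diagonal
  set D : ℝ := ∑ k ∈ (Icc 1 N2).filter (fun k : ℕ => (N1 : ℝ) < (k : ℝ) * Q),
      dv k ^ 2 * (k : ℝ) ^ (-(2 * σ)) with hD
  have hD0 : 0 ≤ D := Finset.sum_nonneg (fun k _ => by positivity)
  have hdiag : ∑ i ∈ Icc 1 N2 ×ˢ FS P Q, ∑ j ∈ Icc 1 N2 ×ˢ FS P Q,
      (if i.1 * qS i.2 = j.1 * qS j.2 then
        ‖g i.1 * ((i.1 : ℕ) : ℂ) ^ (-(σ : ℂ)) * y i.2‖ *
        ‖g j.1 * ((j.1 : ℕ) : ℂ) ^ (-(σ : ℂ)) * y j.2‖ else 0) ≤ K ^ 2 * EP P r * D := by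
    rw [Finset.sum_congr rfl (fun i hi => Finset.sum_congr rfl (fun j hj =>
      diag_term g y σ i j (hc i hi) (hc j hj)))]
    rw [rearr N2 (FS P Q) (fun k => ‖g k‖ * (k : ℝ) ^ (-σ)) (fun S => ‖y S‖) qS]
    refine (pairs_le hr hK hD0 (fun S => ‖y S‖) (fun S => norm_nonneg _) (FS P Q)
      (filter_subset _ _) hy _ (fun S hS S' hS' => ?_)).trans ?_
    · exact fix_le hσ (fun k => ‖g k‖) (fun k => norm_nonneg _) hg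
        (fun k hk => norm_eq_zero.mpr (hg1 k hk)) (hmemS S hS).1 (hmemS S' hS').1
        (hmemS S' hS').2.2
    · rw [hPP P r (fun p => 2 / Real.sqrt (p : ℝ))]
      have h1 : ∏ p ∈ P, (1 + r p ^ 2 + 2 * r p * (2 / Real.sqrt (p : ℝ))) ≤ EP P r := by
        unfold EP
        refine Finset.prod_le_prod (fun p hp => ?_) (fun p hp => ?_)
        · have h1 := hr p hp
          positivity
        · have h1 := hr p hp
          have h2 : 2 * r p * (2 / Real.sqrt (p : ℝ)) = 4 * r p / Real.sqrt (p : ℝ) := by ring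
          rw [h2]
          have h3 : 4 * r p / Real.sqrt (p : ℝ) ≤ 8 * r p / Real.sqrt (p : ℝ) :=
            div_le_div_of_nonneg_right (by linarith) (Real.sqrt_nonneg _)
          linarith
      calc (K ^ 2 * D) * ∏ p ∈ P, (1 + r p ^ 2 + 2 * r p * (2 / Real.sqrt (p : ℝ)))
          ≤ (K ^ 2 * D) * EP P r :=
            mul_le_mul_of_nonneg_left h1 (mul_nonneg (sq_nonneg K) hD0)
        _ = K ^ 2 * EP P r * D := by ring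
  have hBA : 0 ≤ B - A := by linarith
  calc (B - A) * (∑ i ∈ Icc 1 N2 ×ˢ FS P Q, ∑ j ∈ Icc 1 N2 ×ˢ FS P Q,
      (if i.1 * qS i.2 = j.1 * qS j.2 then
        ‖g i.1 * ((i.1 : ℕ) : ℂ) ^ (-(σ : ℂ)) * y i.2‖ *
        ‖g j.1 * ((j.1 : ℕ) : ℂ) ^ (-(σ : ℂ)) * y j.2‖ else 0)) +
      2 * ((N2 : ℝ) * Q) *
        (∑ i ∈ Icc 1 N2 ×ˢ FS P Q, ‖g i.1 * ((i.1 : ℕ) : ℂ) ^ (-(σ : ℂ)) * y i.2‖) ^ 2
      ≤ (B - A) * (K ^ 2 * EP P r * D) +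
        2 * ((N2 : ℝ) * Q) * ((N2 : ℝ) ^ 4 * (K ^ 2 * (Q * EP P r))) := by
        gcongr
    _ = K ^ 2 * EP P r * ((B - A) * D + 2 * Q ^ 2 * (N2 : ℝ) ^ 5) := by ring
    _ ≤ K ^ 2 * EP P r * ((B - A) * D + 4 * Q ^ 2 * (N2 : ℝ) ^ 5) := by
        gcongr
        norm_num

end Pool.Agent.Y180.OM.A
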