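import Mathlib

/-!
# OM-A: auxiliary facts (mean value estimate, sums over pairs)
-/

set_option autoImplicit false

namespace Pool.Agent.Y180.OM.MvA

open Finset MeasureTheory
open scoped ComplexConjugate

theorem cpow_exp {n : ℕ} (hn : 1 ≤ n) (v : ℝ) :
    ((n : ℕ) : ℂ) ^ (-((v : ℂ) * Complex.I))
      = Complex.exp (((-(Real.log n) : ℝ) : ℂ) * Complex.I * (v : ℂ)) := by
  have h0 : (n : ℂ) ≠ 0 := by exact_mod_cast (by omega : n ≠ 0)
  rw [Complex.cpow_def_of_ne_zero h0, ← Complex.natCast_log]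
  congr 1
  push_cast
  ring

theorem norm_exp_one (μ x : ℝ) : ‖Complex.exp ((μ : ℂ) * Complex.I * (x : ℂ))‖ = 1 := by
  rw [show (μ : ℂ) * Complex.I * (x : ℂ) = ((μ * x : ℝ) : ℂ) * Complex.I by push_cast; ring]
  exact Complex.norm_exp_ofReal_mul_I _

theorem int_exp_le {μ A B : ℝ} (hμ : μ ≠ 0) :
    ‖∫ v in A..B, Complex.exp ((μ : ℂ) * Complex.I * (v : ℂ))‖ ≤ 2 / |μ| := by
  have hc : (μ : ℂ) * Complex.I ≠ 0 := by simp [hμ]
  rw [integral_exp_mul_complex hc, norm_div]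
  have h1 : ‖Complex.exp ((μ : ℂ) * Complex.I * (B : ℂ)) -
      Complex.exp ((μ : ℂ) * Complex.I * (A : ℂ))‖ ≤ 2 := by
    refine (norm_sub_le _ _).trans ?_
    rw [norm_exp_one, norm_exp_one]
    norm_num
  rw [norm_mul, Complex.norm_I, mul_one, Complex.norm_real, Real.norm_eq_abs]
  gcongr

theorem log_sub_ge {a b : ℕ} (ha : 1 ≤ a) (hb : 1 ≤ b) (hab : a ≠ b) {M : ℝ}
    (haM : (a : ℝ) ≤ M) (hbM : (b : ℝ) ≤ M) : 1 / M ≤ |Real.log a - Real.log b| := by
  wlog h : b < a generalizing a b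
  · have h' : a < b := by omega
    rw [abs_sub_comm]
    exact this hb ha hab.symm hbM haM h'
  have ha0 : (0 : ℝ) < a := by exact_mod_cast ha
  have hb0 : (0 : ℝ) < b := by exact_mod_cast hb
  have h1 : Real.log b - Real.log a ≤ (b : ℝ) / a - 1 := by
    rw [← Real.log_div hb0.ne' ha0.ne']
    exact Real.log_le_sub_one_of_pos (by positivity)
  have h2 : (b : ℝ) / a ≤ 1 - 1 / a := by
    rw [div_le_iff₀ ha0, sub_mul, one_div, inv_mul_cancel₀ ha0.ne']
    have : (b : ℝ) + 1 ≤ a := by exact_mod_cast h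
    linarith
  have h3 : 1 / M ≤ 1 / (a : ℝ) := one_div_le_one_div_of_le ha0 haM
  refine le_trans ?_ (le_abs_self _)
  linarith

/-- mean value estimate -/
theorem mv {ι : Type*} (I : Finset ι) (c : ι → ℂ) (n : ι → ℕ) {M A B : ℝ} (hM0 : 0 < M)
    (hn : ∀ i ∈ I, 1 ≤ n i) (hM : ∀ i ∈ I, (n i : ℝ) ≤ M) (hAB : A ≤ B) :
    ∫ v in A..B, ‖∑ i ∈ I, c i * ((n i : ℕ) : ℂ) ^ (-((v : ℂ) * Complex.I))‖ ^ 2 ≤
      (B - A) * (∑ i ∈ I, ∑ j ∈ I, if n i = n j then ‖c i‖ * ‖c j‖ else 0) +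
        2 * M * (∑ i ∈ I, ‖c i‖) ^ 2 := by
  have e1 : ∀ v : ℝ,
      ((‖∑ i ∈ I, c i * ((n i : ℕ) : ℂ) ^ (-((v : ℂ) * Complex.I))‖ ^ 2 : ℝ) : ℂ) =
      ∑ i ∈ I, ∑ j ∈ I, (c i * conj (c j)) *
        Complex.exp (((Real.log (n j) - Real.log (n i) : ℝ) : ℂ) * Complex.I * (v : ℂ)) := by
    intro v
    rw [← Complex.normSq_eq_norm_sq, ← Complex.mul_conj, map_sum, Finset.sum_mul_sum]
    refine Finset.sum_congr rfl (fun i hi => Finset.sum_congr rfl (fun j hj => ?_))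
    rw [cpow_exp (hn i hi), cpow_exp (hn j hj), map_mul, ← Complex.exp_conj]
    have e : conj (((-(Real.log (n j)) : ℝ) : ℂ) * Complex.I * (v : ℂ))
        = ((Real.log (n j) : ℝ) : ℂ) * Complex.I * (v : ℂ) := by
      rw [map_mul, map_mul, Complex.conj_ofReal, Complex.conj_ofReal, Complex.conj_I]
      push_cast
      ring
    rw [e, show ∀ a b x y : ℂ, a * x * (b * y) = (a * b) * (x * y) from fun a b x y => by ring,
      ← Complex.exp_add]
    congr 2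
    push_cast
    ring
  have e2 : ((∫ v in A..B, ‖∑ i ∈ I, c i * ((n i : ℕ) : ℂ) ^ (-((v : ℂ) * Complex.I))‖ ^ 2 : ℝ) : ℂ)
      = ∑ i ∈ I, ∑ j ∈ I, (c i * conj (c j)) * ∫ v in A..B,
        Complex.exp (((Real.log (n j) - Real.log (n i) : ℝ) : ℂ) * Complex.I * (v : ℂ)) := by
    rw [← intervalIntegral.integral_ofReal]
    simp_rw [e1]
    rw [intervalIntegral.integral_finsetSum
      (fun i _ => Continuous.intervalIntegrable (by fun_prop) _ _)]
    refine Finset.sum_congr rfl (fun i _ => ?_)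
    rw [intervalIntegral.integral_finsetSum
      (fun j _ => Continuous.intervalIntegrable (by fun_prop) _ _)]
    refine Finset.sum_congr rfl (fun j _ => ?_)
    rw [intervalIntegral.integral_const_mul]
  have h0 : 0 ≤ ∫ v in A..B, ‖∑ i ∈ I, c i * ((n i : ℕ) : ℂ) ^ (-((v : ℂ) * Complex.I))‖ ^ 2 :=
    intervalIntegral.integral_nonneg hAB (fun _ _ => by positivity)
  have h1 : (∫ v in A..B, ‖∑ i ∈ I, c i * ((n i : ℕ) : ℂ) ^ (-((v : ℂ) * Complex.I))‖ ^ 2)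
      = ‖((∫ v in A..B, ‖∑ i ∈ I, c i * ((n i : ℕ) : ℂ) ^ (-((v : ℂ) * Complex.I))‖ ^ 2 : ℝ) : ℂ)‖ := by
    rw [Complex.norm_real, Real.norm_eq_abs, abs_of_nonneg h0]
  rw [h1, e2]
  have h2 : ∀ i ∈ I, ∀ j ∈ I, ‖(c i * conj (c j)) * ∫ v in A..B,
        Complex.exp (((Real.log (n j) - Real.log (n i) : ℝ) : ℂ) * Complex.I * (v : ℂ))‖
      ≤ (B - A) * (if n i = n j then ‖c i‖ * ‖c j‖ else 0) + 2 * M * (‖c i‖ * ‖c j‖) := by
    intro i hi j hj
    rw [norm_mul, norm_mul, RCLike.norm_conj]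
    by_cases h : n i = n j
    · rw [if_pos h, h, sub_self]
      have e : ∀ v : ℝ, Complex.exp (((0 : ℝ) : ℂ) * Complex.I * (v : ℂ)) = 1 := by
        intro v; simp
      simp_rw [e]
      rw [intervalIntegral.integral_const, norm_smul, norm_one, mul_one, Real.norm_eq_abs,
        abs_of_nonneg (by linarith)]
      have : 0 ≤ 2 * M * (‖c i‖ * ‖c j‖) := by positivity
      linarith
    · rw [if_neg h, mul_zero, zero_add]
      have hne : Real.log (n j) - Real.log (n i) ≠ 0 := by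
        intro h3
        have h4 := log_sub_ge (hn j hj) (hn i hi) (fun h5 => h h5.symm) (hM j hj) (hM i hi)
        rw [h3, abs_zero] at h4
        have : 0 < 1 / M := by positivity
        linarith
      have h3 := int_exp_le (A := A) (B := B) hne
      have h4 := log_sub_ge (hn j hj) (hn i hi) (fun h5 => h h5.symm) (hM j hj) (hM i hi)
      have h5 : 2 / |Real.log (n j) - Real.log (n i)| ≤ 2 * M := by
        rw [div_le_iff₀ (by positivity)]
        have : 2 * M * (1 / M) ≤ 2 * M * |Real.log (n j) - Real.log (n i)| :=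
          mul_le_mul_of_nonneg_left h4 (by positivity)
        rw [mul_one_div, mul_div_assoc, div_self hM0.ne', mul_one] at this
        exact this
      calc ‖c i‖ * ‖c j‖ * _ ≤ ‖c i‖ * ‖c j‖ * (2 * M) :=
            mul_le_mul_of_nonneg_left (h3.trans h5) (by positivity)
        _ = _ := by ring
  calc _ ≤ ∑ i ∈ I, ‖∑ j ∈ I, (c i * conj (c j)) * ∫ v in A..B,
        Complex.exp (((Real.log (n j) - Real.log (n i) : ℝ) : ℂ) * Complex.I * (v : ℂ))‖ :=
        norm_sum_le _ _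
    _ ≤ ∑ i ∈ I, ∑ j ∈ I, ((B - A) * (if n i = n j then ‖c i‖ * ‖c j‖ else 0) +
          2 * M * (‖c i‖ * ‖c j‖)) :=
        Finset.sum_le_sum (fun i hi => (norm_sum_le _ _).trans
          (Finset.sum_le_sum (fun j hj => h2 i hi j hj)))
    _ = _ := by
        rw [pow_two, Finset.sum_mul_sum]
        simp only [Finset.sum_add_distrib, ← Finset.mul_sum]

/-- the number of sets of primes with product at most `Q` -/
theorem card_le {P : Finset ℕ} (hP : ∀ p ∈ P, p.Prime) {Q : ℝ} (hQ : 0 ≤ Q) :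
    ((P.powerset.filter (fun S => ((∏ p ∈ S, p : ℕ) : ℝ) ≤ Q)).card : ℝ) ≤ Q := by
  have h1 : (P.powerset.filter (fun S => ((∏ p ∈ S, p : ℕ) : ℝ) ≤ Q)).card
      ≤ (Icc 1 ⌊Q⌋₊).card := by
    refine Finset.card_le_card_of_injOn (fun S => ∏ p ∈ S, p) ?_ ?_
    · intro S hS
      rw [Finset.mem_coe, mem_filter, mem_powerset] at hS
      rw [Finset.mem_coe, mem_Icc]
      exact ⟨Finset.prod_pos (fun p hp => (hP p (hS.1 hp)).pos), Nat.le_floor hS.2⟩
    · intro S hS S' hS' h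
      rw [Finset.mem_coe, mem_filter, mem_powerset] at hS hS'
      have e1 := Nat.primeFactors_prod (fun p hp => hP p (hS.1 hp))
      have e2 := Nat.primeFactors_prod (fun p hp => hP p (hS'.1 hp))
      simp only at h
      rw [← e1, ← e2, h]
  rw [Nat.card_Icc, Nat.add_sub_cancel] at h1
  calc _ ≤ ((⌊Q⌋₊ : ℕ) : ℝ) := by exact_mod_cast h1
    _ ≤ Q := Nat.floor_le hQ

theorem sum_r_le {P : Finset ℕ} (hP : ∀ p ∈ P, p.Prime) {Q : ℝ} (hQ : 0 ≤ Q) (r : ℕ → ℝ) :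
    (∑ S ∈ P.powerset.filter (fun S => ((∏ p ∈ S, p : ℕ) : ℝ) ≤ Q), ∏ p ∈ S, r p) ^ 2
      ≤ Q * ∏ p ∈ P, (1 + r p ^ 2) := by
  refine (sq_sum_le_card_mul_sum_sq).trans ?_
  refine mul_le_mul (card_le hP hQ) ?_ (Finset.sum_nonneg (fun _ _ => by positivity)) hQ
  rw [Finset.prod_one_add]
  calc ∑ S ∈ P.powerset.filter (fun S => ((∏ p ∈ S, p : ℕ) : ℝ) ≤ Q), (∏ p ∈ S, r p) ^ 2
      ≤ ∑ S ∈ P.powerset, (∏ p ∈ S, r p) ^ 2 :=
        Finset.sum_le_sum_of_subset_of_nonneg (filter_subset _ _) (fun _ _ _ => by positivity)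
    _ = _ := Finset.sum_congr rfl (fun S _ => by rw [Finset.prod_pow])

/-- the number of divisors is submultiplicative -/
theorem dv_mul_le (a b : ℕ) :
    (((a * b).divisors.card : ℕ) : ℝ) ≤ (a.divisors.card : ℝ) * (b.divisors.card : ℝ) := by
  rw [Nat.divisors_mul]
  exact_mod_cast Finset.card_mul_le

theorem dv_le (a : ℕ) : ((a.divisors.card : ℕ) : ℝ) ≤ a := by
  exact_mod_cast Nat.card_divisors_le_self a

theorem dv_prod_le {S : Finset ℕ} (hS : ∀ p ∈ S, p.Prime) :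
    (((∏ p ∈ S, p).divisors.card : ℕ) : ℝ) ≤ ∏ _p ∈ S, (2 : ℝ) := by
  induction S using Finset.induction_on with
  | empty => simp
  | insert p S hp ih =>
    rw [Finset.prod_insert hp, Finset.prod_insert hp]
    refine (dv_mul_le _ _).trans ?_
    refine mul_le_mul ?_ (ih (fun q hq => hS q (mem_insert_of_mem hq))) (by positivity)
      (by norm_num)
    rw [Nat.Prime.divisors (hS p (mem_insert_self _ _)),
      Finset.card_pair (hS p (mem_insert_self _ _)).one_lt.ne]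
    norm_num

/-- the diagonal sum for fixed cofactors -/
theorem diag {N N1 : ℕ} {Q σ : ℝ} (hσ : 1 / 2 ≤ σ) (G : ℕ → ℝ) (hG0 : ∀ k, 0 ≤ G k)
    (hG : ∀ k, G k ≤ (k.divisors.card : ℝ)) (hG1 : ∀ k, k ≤ N1 → G k = 0) {u u' : ℕ} (hu : 1 ≤ u)
    (hu' : 1 ≤ u') (hQ : (u' : ℝ) ≤ Q) (hc : Nat.Coprime u' u) :
    ∑ k ∈ Icc 1 N, ∑ k' ∈ Icc 1 N, (if k * u = k' * u' then
      (G k * (k : ℝ) ^ (-σ)) * (G k' * (k' : ℝ) ^ (-σ)) else 0) ≤
    ((u.divisors.card : ℝ) / Real.sqrt u) * ((u'.divisors.card : ℝ) / Real.sqrt u') *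
      ∑ m ∈ (Icc 1 N).filter (fun m : ℕ => (N1 : ℝ) < (m : ℝ) * Q),
        (m.divisors.card : ℝ) ^ 2 * (m : ℝ) ^ (-(2 * σ)) := by
  classical
  rw [← Finset.sum_product' (Icc 1 N) (Icc 1 N) (fun k k' => if k * u = k' * u' then
      (G k * (k : ℝ) ^ (-σ)) * (G k' * (k' : ℝ) ^ (-σ)) else 0)]
  set f : ℕ × ℕ → ℝ := fun p => (G p.1 * (p.1 : ℝ) ^ (-σ)) * (G p.2 * (p.2 : ℝ) ^ (-σ)) with hf
  set h : ℕ → ℝ := fun m => ((u.divisors.card : ℝ) / Real.sqrt u) *
    ((u'.divisors.card : ℝ) / Real.sqrt u') *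
      ((m.divisors.card : ℝ) ^ 2 * (m : ℝ) ^ (-(2 * σ))) with hh
  have hh0 : ∀ m, 0 ≤ h m := fun m => by simp only [hh]; positivity
  set T : Finset (ℕ × ℕ) := (Icc 1 N ×ˢ Icc 1 N).filter
    (fun p => p.1 * u = p.2 * u' ∧ G p.1 ≠ 0) with hT
  have s1 : ∑ p ∈ Icc 1 N ×ˢ Icc 1 N, (if p.1 * u = p.2 * u' then
      (G p.1 * (p.1 : ℝ) ^ (-σ)) * (G p.2 * (p.2 : ℝ) ^ (-σ)) else 0) = ∑ p ∈ T, f p := by
    rw [hT, Finset.sum_filter]
    refine Finset.sum_congr rfl (fun p _ => ?_)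
    by_cases h1 : p.1 * u = p.2 * u'
    · by_cases h2 : G p.1 = 0
      · rw [if_pos h1, if_neg (by tauto), h2]
        ring
      · rw [if_pos h1, if_pos ⟨h1, h2⟩]
    · rw [if_neg h1, if_neg (by tauto)]
  rw [s1]
  -- the structure of the elements of `T`
  have key : ∀ p ∈ T, ∃ m, 1 ≤ m ∧ p.1 = u' * m ∧ p.2 = u * m ∧ m ≤ N ∧
      (N1 : ℝ) < (m : ℝ) * Q := by
    intro p hp
    rw [hT, mem_filter, mem_product, mem_Icc, mem_Icc] at hp
    obtain ⟨⟨⟨ha, hb⟩, hc', hd⟩, he, hg⟩ := hp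
    have hdvd : u' ∣ p.1 := hc.dvd_of_dvd_mul_right (he ▸ Dvd.intro_left _ rfl)
    obtain ⟨m, hm⟩ := hdvd
    have hm1 : 1 ≤ m := by
      rcases Nat.eq_zero_or_pos m with h0 | h0
      · rw [h0, mul_zero] at hm; omega
      · exact h0
    have h2 : p.2 = u * m := by
      have : u' * (u * m) = u' * p.2 := by rw [hm] at he; linarith
      exact (Nat.eq_of_mul_eq_mul_left (by omega) this).symm
    have hmN : m ≤ N := by
      have : m ≤ u' * m := Nat.le_mul_of_pos_left _ (by omega)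
      omega
    refine ⟨m, hm1, hm, h2, hmN, ?_⟩
    have hN1 : N1 < p.1 := by
      by_contra hcon
      exact hg (hG1 _ (by omega))
    have h3 : (N1 : ℝ) < (u' : ℝ) * m := by
      rw [hm] at hN1
      exact_mod_cast hN1
    have h4 : (u' : ℝ) * m ≤ (m : ℝ) * Q := by
      rw [mul_comm]
      exact mul_le_mul_of_nonneg_left hQ (by positivity)
    linarith
  have hle : ∀ p ∈ T, f p ≤ h (p.1 / u') := by
    intro p hp
    obtain ⟨m, hm1, e1, e2, -, -⟩ := key p hp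
    have hm0 : (0 : ℝ) < m := by exact_mod_cast hm1
    have hu0 : (0 : ℝ) < u := by exact_mod_cast hu
    have hu0' : (0 : ℝ) < u' := by exact_mod_cast hu'
    rw [e1, Nat.mul_div_cancel_left _ (by omega : 0 < u')]
    simp only [hf, hh]
    rw [e1, e2]
    push_cast
    rw [Real.mul_rpow hu0'.le hm0.le, Real.mul_rpow hu0.le hm0.le]
    have d1 : G (u' * m) ≤ (u'.divisors.card : ℝ) * (m.divisors.card : ℝ) :=
      (hG _).trans (dv_mul_le _ _)
    have d2 : G (u * m) ≤ (u.divisors.card : ℝ) * (m.divisors.card : ℝ) :=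
      (hG _).trans (dv_mul_le _ _)
    have r1 : (u' : ℝ) ^ (-σ) ≤ 1 / Real.sqrt u' := by
      rw [Real.sqrt_eq_rpow, one_div, ← Real.rpow_neg hu0'.le]
      exact Real.rpow_le_rpow_of_exponent_le (by exact_mod_cast hu') (by linarith)
    have r2 : (u : ℝ) ^ (-σ) ≤ 1 / Real.sqrt u := by
      rw [Real.sqrt_eq_rpow, one_div, ← Real.rpow_neg hu0.le]
      exact Real.rpow_le_rpow_of_exponent_le (by exact_mod_cast hu) (by linarith)
    have r3 : (m : ℝ) ^ (-σ) * (m : ℝ) ^ (-σ) = (m : ℝ) ^ (-(2 * σ)) := by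
      rw [← Real.rpow_add hm0]
      congr 1
      ring
    calc G (u' * m) * ((u' : ℝ) ^ (-σ) * (m : ℝ) ^ (-σ)) *
          (G (u * m) * ((u : ℝ) ^ (-σ) * (m : ℝ) ^ (-σ)))
        ≤ ((u'.divisors.card : ℝ) * (m.divisors.card : ℝ)) *
            ((1 / Real.sqrt u') * (m : ℝ) ^ (-σ)) *
          (((u.divisors.card : ℝ) * (m.divisors.card : ℝ)) *
            ((1 / Real.sqrt u) * (m : ℝ) ^ (-σ))) := by
          have := hG0 (u' * m)
          have := hG0 (u * m)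
          gcongr
      _ = _ := by
          rw [← r3]
          ring
  have hinj : Set.InjOn (fun p : ℕ × ℕ => p.1 / u') (T : Set (ℕ × ℕ)) := by
    intro p hp q hq hpq
    obtain ⟨m, -, e1, e2, -, -⟩ := key p hp
    obtain ⟨m', -, e1', e2', -, -⟩ := key q hq
    simp only at hpq
    rw [e1, e1', Nat.mul_div_cancel_left _ (by omega : 0 < u'),
      Nat.mul_div_cancel_left _ (by omega : 0 < u')] at hpq
    subst hpq
    exact Prod.ext (e1.trans e1'.symm) (e2.trans e2'.symm)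
  calc ∑ p ∈ T, f p ≤ ∑ p ∈ T, h (p.1 / u') := Finset.sum_le_sum hle
    _ = ∑ m ∈ T.image (fun p : ℕ × ℕ => p.1 / u'), h m := (Finset.sum_image hinj).symm
    _ ≤ ∑ m ∈ (Icc 1 N).filter (fun m : ℕ => (N1 : ℝ) < (m : ℝ) * Q), h m := by
        refine Finset.sum_le_sum_of_subset_of_nonneg ?_ (fun m _ _ => hh0 m)
        intro m hm
        rw [mem_image] at hm
        obtain ⟨p, hp, rfl⟩ := hm
        obtain ⟨m, hm1, e1, e2, h3, h4⟩ := key p hp
        rw [e1, Nat.mul_div_cancel_left _ (by omega : 0 < u'), mem_filter, mem_Icc]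
        exact ⟨⟨hm1, h3⟩, h4⟩
    _ = _ := by simp only [hh]; rw [Finset.mul_sum]

end Pool.Agent.Y180.OM.MvA
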